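import Pool.Agent.LPW.StmtsC

set_option autoImplicit false

namespace Pool.Agent.LPW.H41

open Pool.Agent.LPW

theorem ee_one (L : ℕ) : (ee 1 L : ℝ) = (L : ℝ) * (L - 1) / 2 := by
  induction L with
  | zero => simp [ee]
  | succ L ih =>
    have h : ee 1 (L + 1) = ee 1 L + L := by
      unfold ee
      rw [Finset.sum_range_succ, Nat.div_one]
    rw [h, Nat.cast_add, ih]
    push_cast
    ring

theorem Se_le (e D : ℕ) : (Se e D : ℝ) ≤ (e : ℝ) * (D * (D + 1)) / 2 := by
  induction D with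
  | zero => simp [Se]
  | succ D ih =>
    have h : Se e (D + 1) = Se e D + (D + 1) * min (D + 1 + 1) e := by
      unfold Se
      rw [Finset.sum_range_succ]
    have h2 : ((min (D + 1 + 1) e : ℕ) : ℝ) ≤ e := by
      exact_mod_cast min_le_right _ _
    have h3 : ((D : ℝ) + 1) * ((min (D + 1 + 1) e : ℕ) : ℝ) ≤ ((D : ℝ) + 1) * e :=
      mul_le_mul_of_nonneg_left h2 (by positivity)
    have h4 : (Se e (D + 1) : ℝ) = Se e D + ((D : ℝ) + 1) * ((min (D + 1 + 1) e : ℕ) : ℝ) := by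
      rw [h]
      push_cast
      ring
    rw [h4]
    push_cast at h3 ⊢
    nlinarith

theorem Le_ge (e D : ℕ) : e * (D + 1) ≤ Le e D + e * e := by
  induction D with
  | zero =>
    have : e ≤ e * e + 0 ∨ e = 0 := by
      rcases Nat.eq_zero_or_pos e with h | h
      · exact Or.inr h
      · exact Or.inl (by nlinarith)
    rcases this with h | h
    · omega
    · subst h; simp
  | succ D ih =>
    have h : Le e (D + 1) = Le e D + min (D + 1 + 1) e := by
      unfold Le
      rw [Finset.sum_range_succ]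
    rw [h]
    rcases le_or_gt e (D + 1 + 1) with h1 | h1
    · rw [min_eq_right h1]
      nlinarith
    · have h2 : e * (D + 1 + 1) ≤ e * e := Nat.mul_le_mul_left e h1.le
      omega

theorem nme : NmeStmt := by
  intro d ε hε
  obtain ⟨N, hN⟩ := exists_nat_ge ((1 + 2 * ε) * (2 * d + 1) / (2 * ε))
  refine ⟨N + d, Nat.le_add_left _ _, ?_⟩
  intro e he hed
  have hd : 2 ≤ d := he.trans hed
  have hn : (1 + 2 * ε) * (2 * (d : ℝ) + 1) ≤ 2 * ε * ((N : ℝ) + d + 1) := by
    rw [div_le_iff₀ (by positivity)] at hN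
    have : (0 : ℝ) ≤ d := Nat.cast_nonneg _
    nlinarith
  obtain ⟨n, hnd⟩ : ∃ n : ℝ, n = (N : ℝ) + d + 1 := ⟨_, rfl⟩
  rw [← hnd] at hn
  have hL := Le_ge e (N + d)
  have hS := Se_le e (N + d)
  have hE := ee_one (Le e (N + d))
  have hL' : (e : ℝ) * n ≤ (Le e (N + d) : ℝ) + e * e := by
    rw [hnd]
    exact_mod_cast hL
  have hS' : (Se e (N + d) : ℝ) ≤ e * (n * n) / 2 := by
    refine hS.trans ?_
    have h1 : ((N + d : ℕ) : ℝ) = n - 1 := by rw [hnd]; push_cast; ring
    rw [h1]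
    have he0 : (0 : ℝ) ≤ e := Nat.cast_nonneg _
    have hn0 : (0 : ℝ) ≤ n := by rw [hnd]; positivity
    nlinarith [mul_nonneg he0 hn0]
  obtain ⟨L, hLd⟩ : ∃ L : ℝ, L = (Le e (N + d) : ℝ) := ⟨_, rfl⟩
  rw [← hLd] at hL' hE
  have he2 : (2 : ℝ) ≤ e := by exact_mod_cast he
  have hedr : (e : ℝ) ≤ d := by exact_mod_cast hed
  obtain ⟨x, hx⟩ : ∃ x : ℝ, x = (e : ℝ) := ⟨_, rfl⟩
  rw [← hx] at hL' hS' he2 hedr
  obtain ⟨y, hy⟩ : ∃ y : ℝ, y = (d : ℝ) := ⟨_, rfl⟩
  rw [← hy] at hn hedr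
  have hn1 : n ≤ (1 + 2 * ε) * (n - 2 * y - 1) := by nlinarith
  have hy2 : 2 ≤ y := by linarith
  have hnpos : 0 < n := by
    rw [hnd]
    positivity
  have hn2 : 2 * y + 1 < n := by
    by_contra hc
    push Not at hc
    have : (1 + 2 * ε) * (n - 2 * y - 1) ≤ 0 := by
      apply mul_nonpos_of_nonneg_of_nonpos <;> linarith
    linarith
  -- the lower bound of `L`
  have hM : x * (n - x) ≤ L := by nlinarith
  have hM1 : n - y ≤ n - x := by linarith
  have hM2 : 2 ≤ x * (n - x) := by nlinarith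
  have hLL : x * (n - x) * (x * (n - x) - 1) ≤ L * (L - 1) := by
    have h1 : 0 ≤ x * (n - x) := by linarith
    nlinarith
  constructor
  · rw [hE]
    refine hS'.trans ?_
    have h1 : x * (n * n) ≤ (1 / 2 + ε) * (x * (n - x) * (x * (n - x) - 1)) := by
      have h2 : n * n ≤ (1 / 2 + ε) * ((n - x) * (x * (n - x) - 1)) := by
        have h3 : n * n ≤ (1 + 2 * ε) * (n - 2 * y - 1) * n :=
          mul_le_mul_of_nonneg_right hn1 hnpos.le
        have h4 : (n - 2 * y - 1) * n ≤ (n - y) * (n - y) - (n - y) := by nlinarith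
        have h5 : (n - y) * (n - y) - (n - y) ≤ (n - x) * (n - x) - (n - x) := by nlinarith
        have h6 : 2 * ((n - x) * (n - x) - (n - x)) ≤ (n - x) * (x * (n - x) - 1) := by
          have : 0 ≤ (n - x) * (n - x) := mul_self_nonneg _
          nlinarith
        have h7 : 2 * ((n - 2 * y - 1) * n) ≤ (n - x) * (x * (n - x) - 1) := by linarith
        have h8 : (1 / 2 + ε) * (2 * ((n - 2 * y - 1) * n)) ≤
            (1 / 2 + ε) * ((n - x) * (x * (n - x) - 1)) :=
          mul_le_mul_of_nonneg_left h7 (by positivity)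
        calc n * n ≤ (1 + 2 * ε) * (n - 2 * y - 1) * n := h3
          _ = (1 / 2 + ε) * (2 * ((n - 2 * y - 1) * n)) := by ring
          _ ≤ _ := h8
      calc x * (n * n) ≤ x * ((1 / 2 + ε) * ((n - x) * (x * (n - x) - 1))) :=
            mul_le_mul_of_nonneg_left h2 (by linarith)
        _ = _ := by ring
    have h9 : (1 / 2 + ε) * (x * (n - x) * (x * (n - x) - 1)) ≤ (1 / 2 + ε) * (L * (L - 1)) :=
      mul_le_mul_of_nonneg_left hLL (by positivity)
    linarith
  · have h : (0 : ℝ) < ee 1 (Le e (N + d)) := by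
      rw [hE]
      have : 2 ≤ L := hM2.trans hM
      nlinarith
    exact_mod_cast h

end Pool.Agent.LPW.H41
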